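import Pool.Agent.H51.MF.Base

/-! # DET: the dimension vectors of the submodules determine membership in `InW`. -/

set_option linter.style.haveILetI false
set_option linter.unusedSectionVars false
set_option autoImplicit false

namespace Pool.Agent.H51.MF

open Module Pool.Agent.H51.T2

universe u v

theorem DET_comp {K : Type v} [Field K] {A : Type u} [Ring A] [Algebra K A] (g : TC K A) :
    Comp (TC.zero : TC K A) g := by
  constructor
  · intro h
    refine ⟨0, 0, ?_⟩
    ext x
    have hx : x = 0 := Subsingleton.elim _ _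
    subst hx
    simp
  · intro h
    refine ⟨0, 0, ?_⟩
    ext x

theorem DET_tbn {K : Type v} [Field K] {A : Type u} [Ring A] [Algebra K A] (c : Coo K A)
    (θ : Fin c.n → ℤ) (M M' : FM K A) (hv : c.v M = c.v M')
    (hs : ∀ S' : Submodule A M', ∃ S : Submodule A M, c.v (M'.sub S') = c.v (M.sub S))
    (h : TbN c TC.zero θ M) : TbN c TC.zero θ M' := by
  intro S' _
  obtain ⟨S, hS⟩ := hs S'
  have h1 := v_add c M S
  have h2 := v_add c M' S'
  have h3 : c.v (M'.quot S') = c.v (M.quot S) := by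
    have h4 : c.v (M'.sub S') + c.v (M'.quot S') = c.v (M'.sub S') + c.v (M.quot S) := by
      rw [← h2, ← hv, h1, hS]
    exact add_left_cancel h4
  rw [h3]
  exact h S (inW_zero _)

theorem DET_fbn {K : Type v} [Field K] {A : Type u} [Ring A] [Algebra K A] (c : Coo K A)
    (θ : Fin c.n → ℤ) (M M' : FM K A)
    (hs : ∀ S' : Submodule A M', ∃ S : Submodule A M, c.v (M'.sub S') = c.v (M.sub S))
    (h : FbN c TC.zero θ M) : FbN c TC.zero θ M' := by
  intro S' _
  obtain ⟨S, hS⟩ := hs S'
  rw [hS]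
  exact h S (inW_zero _)

/-- DET: the dimension vectors of the submodules determine membership in `InW`. -/
theorem s_DET (K : Type v) [Field K] (A : Type u) [Ring A] [Algebra K A]
    (hNUM : S_NUM K A) (hCLS : S_CLS K A) : S_DET K A := by
  intro c f₁ M M' hr hv hset hM
  obtain ⟨θ, hθ⟩ := (hCLS c).1 f₁
  have hz : Rigid (TC.zero : TC K A).f := (DET_comp TC.zero).1
  have hR : Rz c TC.zero f₁ θ := ⟨hr, DET_comp f₁, fun X _ => hθ X⟩
  have hs : ∀ S' : Submodule A M', ∃ S : Submodule A M, c.v (M'.sub S') = c.v (M.sub S) := by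
    intro S'
    have h1 : c.v (M'.sub S') ∈ {w | ∃ S : Submodule A M', w = c.v (M'.sub S)} := ⟨S', rfl⟩
    rw [← hset] at h1
    exact h1
  have nM := hNUM c TC.zero f₁ θ M hz hR (inW_zero M)
  have nM' := hNUM c TC.zero f₁ θ M' hz hR (inW_zero M')
  exact ⟨nM'.1.2 (DET_tbn c θ M M' hv hs (nM.1.1 hM.1)),
    nM'.2.2 (DET_fbn c θ M M' hs (nM.2.1 hM.2))⟩

end Pool.Agent.H51.MF
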